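import Mathlib
import Pool.Agent.Q52.Cond.Defs
import Pool.Agent.Q52.Cond.Ring
import Pool.Agent.Q52.Cond.Main

set_option autoImplicit false

/-!
# The conductor of an ideal enlarged by a regular element

Let `A = ℤ[e, u, v] / (e² - 2e, eu - 2u, ev, u², uv, v²)`, a ring which is free of rank `4` over `ℤ`
with basis `1, e, u, v`, let `I = (u, v)` and `f = 2`. Then `I ^ j : f = I ^ j` for all `j`, and `e`
lies in `C((I, f))` but not in `C(I) + f A`.
-/

namespace Pool.Agent.Results.MP_72f8f6_ag.ConductorNotContained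

open Q52.Cond

/-- The inclusion `C((I, f)) ⊆ (C(I), f)` fails for some Noetherian ring `R`, some ideal
`I = (f₁, …, f_m)` and some `f` with `I ^ j : f = I ^ j` for all `j ≥ 0`; moreover `f` is a
nonzerodivisor. -/
theorem result :
    ∃ (R : Type) (_ : CommRing R) (_ : IsNoetherianRing R) (m : ℕ) (g : Fin m → R) (f : R),
      (∀ (j : ℕ) (r : R), r * f ∈ Ideal.span (Set.range g) ^ j ↔ r ∈ Ideal.span (Set.range g) ^ j) ∧
      (∀ r : R, r * f = 0 → r = 0) ∧
      ¬ conductor (Fin.cons f g : Fin (m + 1) → R) ≤ conductor g ⊔ Ideal.span {f} :=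
  ⟨A, inferInstance, inferInstance, 2, gens, 2, colon,
    fun _ h => A.two_mul_cancel (by rw [mul_comm, h]), fun h => e_notMem (h e_mem)⟩

end Pool.Agent.Results.MP_72f8f6_ag.ConductorNotContained
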